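import Pool.Agent.W508.NS.Plan
import Pool.Agent.W508.NS.Plan2

/-!
# Averages over the orbits of a compact group
-/

open MeasureTheory Topology Set

namespace Pool.W305.NS

open Pool.W508.NS

universe u

section haar

variable {K : Type*} [Group K] [TopologicalSpace K] [IsTopologicalGroup K] [CompactSpace K]
  [T2Space K] [MeasurableSpace K] [BorelSpace K]

/-- the normalised Haar measure -/
noncomputable def eta (K : Type*) [Group K] [TopologicalSpace K] [IsTopologicalGroup K]
    [CompactSpace K] [T2Space K] [MeasurableSpace K] [BorelSpace K] : Measure K :=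
  Measure.haarMeasure (⊤ : TopologicalSpace.PositiveCompacts K)

instance eta_haar : (eta K).IsHaarMeasure := by unfold eta; infer_instance

instance eta_prob : IsProbabilityMeasure (eta K) := by
  constructor
  have := Measure.haarMeasure_self (K₀ := (⊤ : TopologicalSpace.PositiveCompacts K))
  simpa [eta] using this

theorem eta_right (g : K) : (eta K).map (fun x => x * g) = eta K := by
  have : IsProbabilityMeasure ((eta K).map (fun x => x * g)) :=
    Measure.isProbabilityMeasure_map (by fun_prop)
  exact Measure.isHaarMeasure_eq_of_isProbabilityMeasure _ _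

theorem eta_left (g : K) : (eta K).map (fun x => g * x) = eta K :=
  map_mul_left_eq_self (eta K) g

end haar

section av

variable {K N : Type*} [Group K] [TopologicalSpace K] [IsTopologicalGroup K] [CompactSpace K]
  [T2Space K] [MeasurableSpace K] [BorelSpace K] [TopologicalSpace N] [CompactSpace N]
  [T2Space N] [SecondCountableTopology N] [MulAction K N] [ContinuousSMul K N]

/-- the average of `φ` over the orbit -/
noncomputable def Av (K : Type*) {N : Type*} [Group K] [TopologicalSpace K]
    [IsTopologicalGroup K] [CompactSpace K] [T2Space K] [MeasurableSpace K] [BorelSpace K]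
    [MulAction K N] (φ : N → ℝ) (x : N) : ℝ :=
  ∫ k : K, φ (k • x) ∂(eta K)

theorem Av_cont (φ : N → ℝ) (hφ : Continuous φ) : Continuous (Av K φ) := by
  have := continuous_parametric_integral_of_continuous (μ := eta K)
    (f := fun (x : N) (k : K) => φ (k • x)) (by fun_prop) isCompact_univ
  have h2 : (fun x : N => ∫ k in (univ : Set K), φ (k • x) ∂(eta K)) = Av K φ := by
    funext x
    simp [Av]
  rw [← h2]
  exact this

omit [CompactSpace N] [T2Space N] [SecondCountableTopology N] in
theorem integrable_K (φ : N → ℝ) (hφ : Continuous φ) (x : N) :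
    Integrable (fun k : K => φ (k • x)) (eta K) := by
  have hc : Continuous (fun k : K => φ (k • x)) := by fun_prop
  exact hc.integrable_of_hasCompactSupport (HasCompactSupport.of_compactSpace _)

omit [CompactSpace N] [T2Space N] [SecondCountableTopology N] in
theorem Av_smul (φ : N → ℝ) (hφ : Continuous φ) (k' : K) (x : N) :
    Av K φ (k' • x) = Av K φ x := by
  unfold Av
  have hc : Continuous (fun k : K => φ (k • x)) := by fun_prop
  have h1 : ∫ k : K, φ (k • k' • x) ∂(eta K) =
      ∫ k : K, (fun k : K => φ (k • x)) (k * k') ∂(eta K) := by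
    simp only [mul_smul]
  rw [h1]
  have hm : AEMeasurable (fun x : K => x * k') (eta K) :=
    (continuous_mul_const k').measurable.aemeasurable
  rw [← integral_map (f := fun k : K => φ (k • x)) hm]
  · rw [eta_right]
  · exact hc.aestronglyMeasurable

omit [CompactSpace N] [T2Space N] [SecondCountableTopology N] in
theorem Av_comp (φ : N → ℝ) (hφ : Continuous φ) (k' : K) (x : N) :
    Av K (fun y => φ (k' • y)) x = Av K φ x := by
  unfold Av
  have hc : Continuous (fun k : K => φ (k • x)) := by fun_prop
  have h1 : ∫ k : K, φ (k' • k • x) ∂(eta K) =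
      ∫ k : K, (fun k : K => φ (k • x)) (k' * k) ∂(eta K) := by
    simp only [mul_smul]
  rw [h1]
  have hm : AEMeasurable (fun x : K => k' * x) (eta K) :=
    (continuous_const_mul k').measurable.aemeasurable
  rw [← integral_map (f := fun k : K => φ (k • x)) hm]
  · rw [eta_left]
  · exact hc.aestronglyMeasurable

/-- the integral is not changed by averaging -/
theorem integral_Av [MeasurableSpace N] [BorelSpace N] (μ : Measure N) [IsProbabilityMeasure μ]
    (hμ : ∀ k : K, μ.map (fun x => k • x) = μ) (φ : N → ℝ) (hφ : Continuous φ) :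
    ∫ x, Av K φ x ∂μ = ∫ x, φ x ∂μ := by
  have hc : Continuous (fun p : N × K => φ (p.2 • p.1)) := by fun_prop
  have hint : Integrable (fun p : N × K => φ (p.2 • p.1)) (μ.prod (eta K)) :=
    hc.integrable_of_hasCompactSupport (HasCompactSupport.of_compactSpace _)
  have h1 : ∫ x, Av K φ x ∂μ = ∫ k : K, ∫ x : N, φ (k • x) ∂μ ∂(eta K) := by
    unfold Av
    exact integral_integral_swap hint
  rw [h1]
  have h2 : ∀ k : K, ∫ x : N, φ (k • x) ∂μ = ∫ x, φ x ∂μ := by
    intro k
    have hm : AEMeasurable (fun x : N => k • x) μ :=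
      (continuous_const_smul k).measurable.aemeasurable
    rw [← integral_map (f := φ) hm hφ.aestronglyMeasurable, hμ k]
  simp [h2]

end av

/-- **NS-LIFTC** -/
theorem mainC : S_liftC.{u} := by
  intro K N N' _ _ _ _ _ _ _ _ _ _ _ _ _ _ _ _ _ _ _ q E μ ν hq hE hKE hfib hμ hν hmap
  let _ : MeasurableSpace K := borel K
  have : BorelSpace K := ⟨rfl⟩
  have pμ := hμ.prob
  have pν := hν.prob
  have : TopologicalSpace.MetrizableSpace N := inferInstance
  have iμ : ∀ k : K, μ.map (fun x => k • x) = μ := fun k => hμ.inv _ ⟨k, rfl⟩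
  have iν : ∀ k : K, ν.map (fun x => k • x) = ν := fun k => hν.inv _ ⟨k, rfl⟩
  -- the distribution of an average is determined by the image measure
  have key : ∀ φ : N → ℝ, Continuous φ → μ.map (Av K φ) = ν.map (Av K φ) := by
    intro φ hφ
    have hA := Av_cont (K := K) φ hφ
    have : IsProbabilityMeasure (μ.map (Av K φ)) :=
      Measure.isProbabilityMeasure_map hA.measurable.aemeasurable
    have : IsProbabilityMeasure (ν.map (Av K φ)) :=
      Measure.isProbabilityMeasure_map hA.measurable.aemeasurable
    refine ext_of_generate_finite {s : Set ℝ | IsClosed s} ?_ isPiSystem_isClosed ?_ ?_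
    · rw [BorelSpace.measurable_eq (α := ℝ), borel_eq_generateFrom_isClosed]
    · intro B hB
      have hB' : IsClosed B := hB
      rw [Measure.map_apply hA.measurable hB'.measurableSet,
        Measure.map_apply hA.measurable hB'.measurableSet]
      set F : Set N' := q '' (E ∩ Av K φ ⁻¹' B) with hF
      have hFc : IsClosed F :=
        ((hE.inter (hB'.preimage hA)).isCompact.image hq).isClosed
      have hset : E ∩ Av K φ ⁻¹' B = q ⁻¹' F ∩ E := by
        ext x
        constructor
        · rintro ⟨hx, hx'⟩
          exact ⟨⟨x, ⟨hx, hx'⟩, rfl⟩, hx⟩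
        · rintro ⟨⟨y, ⟨hy, hy'⟩, hyx⟩, hx⟩
          obtain ⟨k, rfl⟩ := (hfib y hy x hx).1 hyx
          refine ⟨hx, ?_⟩
          show Av K φ (k • y) ∈ B
          rw [Av_smul φ hφ]
          exact hy'
      have gen : ∀ ρ : Measure N, ρ Eᶜ = 0 → ρ (Av K φ ⁻¹' B) = (ρ.map q) F := by
        intro ρ hρ
        rw [Measure.map_apply hq.measurable hFc.measurableSet]
        have e1 : ρ (Av K φ ⁻¹' B) = ρ (E ∩ Av K φ ⁻¹' B) := by
          rw [inter_comm]
          exact (measure_inter_conull hρ).symm
        have e2 : ρ (q ⁻¹' F) = ρ (q ⁻¹' F ∩ E) :=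
          (measure_inter_conull hρ).symm
        rw [e1, e2, hset]
      rw [gen μ hμ.supp, gen ν hν.supp, hmap]
    · simp
  have hint : ∀ φ : N → ℝ, Continuous φ → ∫ x, φ x ∂μ = ∫ x, φ x ∂ν := by
    intro φ hφ
    have hA := Av_cont (K := K) φ hφ
    rw [← integral_Av μ iμ φ hφ, ← integral_Av ν iν φ hφ]
    have e : ∀ ρ : Measure N, ∫ x, Av K φ x ∂ρ = ∫ t, t ∂(ρ.map (Av K φ)) := by
      intro ρ
      rw [integral_map (f := fun t : ℝ => t) hA.measurable.aemeasurable
        continuous_id.aestronglyMeasurable]
    rw [e μ, e ν, key φ hφ]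
  refine ext_of_forall_integral_eq_of_IsFiniteMeasure fun f => ?_
  exact hint f f.continuous

/-- **NS-LIFTU** -/
theorem main : S_liftU.{u} := by
  intro H K N N' _ _ _ _ _ _ _ _ _ _ _ _ _ _ _ _ _ _ _ _ _ _ _ _ q E C hq hqH hE hEC hKE hfib hC
    μ ν hμ hν
  have pμ := hμ.prob
  have pν := hν.prob
  have gen : ∀ ρ : Measure N, IsInvOn (acts H N ∪ acts K N) E ρ →
      IsInvOn (acts H N') C (ρ.map q) := by
    intro ρ hρ
    have pρ := hρ.prob
    refine ⟨Measure.isProbabilityMeasure_map hq.measurable.aemeasurable, ?_, ?_⟩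
    · have hcl : IsClosed (q '' E) := (hE.isCompact.image hq).isClosed
      have hsub : Cᶜ ⊆ (q '' E)ᶜ := by
        rw [compl_subset_compl]
        rintro _ ⟨x, hx, rfl⟩
        exact hEC x hx
      refine measure_mono_null hsub ?_
      rw [Measure.map_apply hq.measurable hcl.measurableSet.compl]
      refine measure_mono_null ?_ hρ.supp
      intro x hx hx'
      exact hx ⟨x, hx', rfl⟩
    · rintro t ⟨h, rfl⟩
      have h1 := hρ.inv (fun x => h • x) (Or.inl ⟨h, rfl⟩)
      rw [Measure.map_map (continuous_const_smul h).measurable hq.measurable]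
      have h2 : (fun x : N' => h • x) ∘ q = q ∘ (fun x : N => h • x) := by
        funext x
        simp [hqH]
      rw [h2, ← Measure.map_map hq.measurable (continuous_const_smul h).measurable, h1]
  have hmap := hC _ _ (gen μ hμ) (gen ν hν)
  refine mainC K N N' q E μ ν hq hE hKE hfib ?_ ?_ hmap
  · exact ⟨hμ.prob, hμ.supp, fun t ht => hμ.inv t (Or.inr ht)⟩
  · exact ⟨hν.prob, hν.supp, fun t ht => hν.inv t (Or.inr ht)⟩

end Pool.W305.NS
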