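import Pool.Agent.W305.NS.Av

/-!
# Existence of the Haar lift
-/

open MeasureTheory Topology Set
open scoped CompactlySupported

namespace Pool.W305.NS.LiftE

open Pool.W508.NS Pool.W305.NS

universe u

theorem main : S_liftE.{u} := by
  intro H K N N' _ _ _ _ _ _ _ _ _ _ _ _ _ _ _ _ _ _ _ _ _ _ _ _ q E C hq hqH hE hcomm hC hKE
    hHE hfib ⟨ρ, hρ⟩
  let _ : MeasurableSpace K := borel K
  have : BorelSpace K := ⟨rfl⟩
  have pρ := hρ.prob
  have hmet : TopologicalSpace.MetrizableSpace N := inferInstance
  have hCc : IsClosed C := by rw [← hC]; exact (hE.isCompact.image hq).isClosed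
  -- the quotient map E → C
  let qE : E → C := fun x => ⟨q x, by rw [← hC]; exact ⟨x, x.2, rfl⟩⟩
  have hqE : Continuous qE := by
    exact (hq.comp continuous_subtype_val).subtype_mk _
  have hsur : Function.Surjective qE := by
    rintro ⟨c, hc⟩
    rw [← hC] at hc
    obtain ⟨x, hx, rfl⟩ := hc
    exact ⟨⟨x, hx⟩, rfl⟩
  have cE : CompactSpace E := isCompact_iff_compactSpace.1 hE.isCompact
  have hquot : IsQuotientMap qE := hqE.isClosedMap.isQuotientMap hqE hsur
  -- descent of averages
  have desc : ∀ φ : C(N, ℝ), ∃ ψ : C(C, ℝ), ∀ x : E, ψ (qE x) = Av K φ x := by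
    intro φ
    let g : C(E, ℝ) := ⟨fun x => Av K φ x, (Av_cont _ φ.continuous).comp continuous_subtype_val⟩
    have hg : ∀ a b : E, qE a = qE b → g a = g b := by
      intro a b hab
      have h1 : q a = q b := congrArg Subtype.val hab
      obtain ⟨k, hk⟩ := (hfib a a.2 b b.2).1 h1
      show Av K φ a = Av K φ b
      rw [hk, Av_smul _ φ.continuous]
    let ψ0 : C → ℝ := fun c => g (hsur c).choose
    have hψ0 : ∀ x : E, ψ0 (qE x) = g x := fun x => hg _ _ (hsur (qE x)).choose_spec
    have hψc : Continuous ψ0 := by
      rw [hquot.continuous_iff]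
      have : ψ0 ∘ qE = g := funext hψ0
      rw [this]
      exact g.continuous
    exact ⟨⟨ψ0, hψc⟩, hψ0⟩
  choose Ψ hΨ using desc
  have uniq : ∀ (ψ ψ' : C(C, ℝ)), (∀ x : E, ψ (qE x) = ψ' (qE x)) → ψ = ψ' := by
    intro ψ ψ' h
    ext c
    obtain ⟨x, rfl⟩ := hsur c
    exact h x
  -- the measure on C
  set ρ' : Measure C := ρ.comap Subtype.val with hρ'
  have hmapρ : ρ'.map Subtype.val = ρ := by
    rw [hρ', map_comap_subtype_coe hCc.measurableSet]
    rw [Measure.restrict_eq_self_of_ae_mem]
    rw [ae_iff]
    exact hρ.supp
  have pρ' : IsProbabilityMeasure ρ' := by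
    constructor
    have := pρ.measure_univ
    rw [← hmapρ, Measure.map_apply measurable_subtype_coe MeasurableSet.univ] at this
    simpa using this
  have cC : CompactSpace C := isCompact_iff_compactSpace.1 hCc.isCompact
  have intC : ∀ ψ : C(C, ℝ), Integrable (fun c => ψ c) ρ' := fun ψ =>
    ψ.continuous.integrable_of_hasCompactSupport (HasCompactSupport.of_compactSpace _)
  let Λ : C_c(N, ℝ) →ₚ[ℝ] ℝ :=
    { toFun := fun f => ∫ c, Ψ f.toContinuousMap c ∂ρ'
      map_add' := by
        intro f g
        have h : Ψ (f + g).toContinuousMap = Ψ f.toContinuousMap + Ψ g.toContinuousMap := by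
          refine uniq _ _ fun x => ?_
          rw [hΨ, ContinuousMap.add_apply, hΨ, hΨ]
          unfold Av
          rw [← integral_add (integrable_K _ f.continuous _) (integrable_K _ g.continuous _)]
          rfl
        simp only [h, ContinuousMap.add_apply]
        exact integral_add (intC _) (intC _)
      map_smul' := by
        intro a f
        have h : Ψ (a • f).toContinuousMap = a • Ψ f.toContinuousMap := by
          refine uniq _ _ fun x => ?_
          rw [hΨ, ContinuousMap.smul_apply, hΨ]
          unfold Av
          rw [← integral_smul]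
          rfl
        simp only [h, ContinuousMap.smul_apply]
        exact integral_smul _ _
      monotone' := by
        intro f g hfg
        refine integral_mono (intC _) (intC _) ?_
        intro c
        obtain ⟨x, rfl⟩ := hsur c
        show Ψ f.toContinuousMap (qE x) ≤ Ψ g.toContinuousMap (qE x)
        rw [hΨ, hΨ]
        unfold Av
        refine integral_mono (integrable_K _ f.continuous _) (integrable_K _ g.continuous _) ?_
        intro k
        exact hfg _ }
  set μ := RealRMK.rieszMeasure Λ with hμ
  have hint : ∀ φ : C(N, ℝ), ∫ x, φ x ∂μ = ∫ c, Ψ φ c ∂ρ' := by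
    intro φ
    have := RealRMK.integral_rieszMeasure Λ
      ⟨φ, HasCompactSupport.of_compactSpace _⟩
    exact this
  have hEne : E.Nonempty := by
    by_contra hne
    rw [Set.not_nonempty_iff_eq_empty] at hne
    have hC' : C = ∅ := by rw [← hC, hne, image_empty]
    have := hρ.supp
    rw [hC', compl_empty, pρ.measure_univ] at this
    exact one_ne_zero this
  have hprob : IsProbabilityMeasure μ := by
    have h1 := hint 1
    have h2 : Ψ 1 = 1 := by
      refine uniq _ _ fun x => ?_
      rw [hΨ]
      simp [Av]
    rw [h2] at h1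
    simp only [ContinuousMap.one_apply, integral_const, smul_eq_mul, mul_one] at h1
    have h3 : ρ'.real univ = 1 := by simp
    rw [h3] at h1
    constructor
    have h4 : μ univ ≠ ⊤ := measure_ne_top μ univ
    rw [Measure.real, ENNReal.toReal_eq_one_iff] at h1
    exact h1
  -- invariance from continuous functions
  have inv_of : ∀ t : N → N, Continuous t →
      (∀ φ : C(N, ℝ), ∀ ψ : C(N, ℝ), (∀ x, ψ x = φ (t x)) → ∫ c, Ψ ψ c ∂ρ' = ∫ c, Ψ φ c ∂ρ') →
      μ.map t = μ := by
    intro t ht h
    have : IsProbabilityMeasure (μ.map t) :=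
      Measure.isProbabilityMeasure_map ht.measurable.aemeasurable
    refine ext_of_forall_integral_eq_of_IsFiniteMeasure fun f => ?_
    rw [integral_map ht.measurable.aemeasurable f.continuous.aestronglyMeasurable]
    have e1 := hint ⟨fun x => f (t x), f.continuous.comp ht⟩
    have e2 := hint ⟨f, f.continuous⟩
    have e3 := h ⟨f, f.continuous⟩ ⟨fun x => f (t x), f.continuous.comp ht⟩ (fun x => rfl)
    simp only [ContinuousMap.coe_mk] at e1 e2
    rw [e1, e2, e3]
  refine ⟨μ, hprob, ?_, ?_⟩
  · -- carried by E
    let _ := TopologicalSpace.metrizableSpaceMetric N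
    let φ : C(N, ℝ) := ⟨fun x => Metric.infDist x E, Metric.continuous_infDist_pt E⟩
    have h1 := hint φ
    have h2 : Ψ φ = 0 := by
      refine uniq _ _ fun x => ?_
      rw [hΨ]
      have : ∀ k : K, φ (k • (x : N)) = 0 := fun k =>
        Metric.infDist_zero_of_mem (hKE x x.2 k)
      simp [Av, this]
    rw [h2] at h1
    simp only [ContinuousMap.zero_apply, integral_zero] at h1
    have hi : Integrable (fun x => φ x) μ :=
      φ.continuous.integrable_of_hasCompactSupport (HasCompactSupport.of_compactSpace _)
    have h1' := (integral_eq_zero_iff_of_nonneg (f := fun x => φ x)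
      (fun x => Metric.infDist_nonneg) hi).1 h1
    have h3 : ∀ᵐ x ∂μ, x ∈ E := by
      filter_upwards [h1'] with x hx
      exact (hE.mem_iff_infDist_zero hEne).2 hx
    exact h3
  · rintro t (⟨h, rfl⟩ | ⟨k, rfl⟩)
    · -- H-invariance
      refine inv_of _ (continuous_const_smul h) fun φ ψ hψ => ?_
      have hCh : ∀ c ∈ C, h • c ∈ C := by
        intro c hc
        rw [← hC] at hc ⊢
        obtain ⟨x, hx, rfl⟩ := hc
        exact ⟨h • x, hHE x hx h, hqH h x⟩
      let th : C → C := fun c => ⟨h • (c : N'), hCh c c.2⟩
      have hth : Continuous th := ((continuous_const_smul h).comp continuous_subtype_val).subtype_mk _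
      have e1 : ∀ c, Ψ ψ c = Ψ φ (th c) := by
        intro c
        obtain ⟨x, rfl⟩ := hsur c
        have e2 : th (qE x) = qE ⟨h • (x : N), hHE x x.2 h⟩ := by
          apply Subtype.ext
          exact (hqH h x).symm
        rw [e2, hΨ, hΨ]
        unfold Av
        refine integral_congr_ae (Filter.Eventually.of_forall fun k => ?_)
        show ψ (k • (x : N)) = φ (k • h • (x : N))
        rw [hψ, hcomm]
      simp only [e1]
      have e3 : ρ'.map th = ρ' := by
        have inj : Function.Injective (Measure.map (Subtype.val : C → N')) := by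
          intro a b hab
          ext s hs
          have hs' : MeasurableSet ((Subtype.val : C → N') '' s) :=
            hCc.measurableSet.subtype_image hs
          have := congrArg (fun m : Measure N' => m ((Subtype.val : C → N') '' s)) hab
          simp only [Measure.map_apply measurable_subtype_coe hs',
            preimage_image_eq s Subtype.val_injective] at this
          exact this
        apply inj
        rw [Measure.map_map measurable_subtype_coe hth.measurable]
        have : (Subtype.val : C → N') ∘ th = (fun x : N' => h • x) ∘ Subtype.val := rfl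
        rw [this, ← Measure.map_map (continuous_const_smul h).measurable measurable_subtype_coe,
          hmapρ]
        exact hρ.inv _ ⟨h, rfl⟩
      rw [← integral_map (f := fun c => Ψ φ c) hth.measurable.aemeasurable
        (Ψ φ).continuous.aestronglyMeasurable, e3]
    · -- K-invariance
      refine inv_of _ (continuous_const_smul k) fun φ ψ hψ => ?_
      have : Ψ ψ = Ψ φ := by
        refine uniq _ _ fun x => ?_
        rw [hΨ, hΨ]
        have e : (fun y => φ (k • y)) = (ψ : N → ℝ) := funext fun y => (hψ y).symm
        rw [← Av_comp (φ : N → ℝ) φ.continuous k, e]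
      rw [this]

end Pool.W305.NS.LiftE
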